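import Mathlib
import Pool.Agent.H50.Ex3

namespace Pool.Agent.Results.MP_2bf34e_al.Limit

open Pool.Agent.H50.Ex

theorem result (K : Type) [Field K] :
    (ringChar K = 0 → ∀ (r : ℕ) (d : Fin r → ℕ), (∀ i, 1 ≤ d i) → Lim K d) ∧
      (ringChar K ≠ 0 → ¬ Lim K (fun _ : Fin 1 => 2)) := by
  refine ⟨fun h r d hd => ?_, charp⟩
  have : CharP K 0 := h ▸ ringChar.charP K
  have := CharP.charP_to_charZero K
  exact char0 hd

end Pool.Agent.Results.MP_2bf34e_al.Limit
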